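import Mathlib

set_option autoImplicit false

/-- Local log-submodularity of a decreasing nonnegative set function implies the global one. -/
theorem pw_C1 {α : Type*} [DecidableEq α] (M : Finset α → ℝ) (h0 : ∀ S, 0 ≤ M S)
    (hm : ∀ S T, S ⊆ T → M T ≤ M S)
    (hl : ∀ S e f, e ∉ S → f ∉ S → e ≠ f →
      M (insert e (insert f S)) * M S ≤ M (insert e S) * M (insert f S))
    (S T : Finset α) : M (S ∪ T) * M (S ∩ T) ≤ M S * M T := by
  have A : ∀ (X : Finset α) (e : α) (D : Finset α), e ∉ X ∪ D → Disjoint X D →
      M (insert e (X ∪ D)) * M X ≤ M (X ∪ D) * M (insert e X) := by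
    intro X e D
    induction D using Finset.induction_on with
    | empty =>
      intro _ _
      rw [Finset.union_empty, mul_comm]
    | insert f D0 hf ih =>
      intro he hd
      have he' : e ∉ X ∪ D0 := by
        intro h; apply he
        rw [Finset.union_insert]; exact Finset.mem_insert_of_mem h
      have hd' : Disjoint X D0 := (Finset.disjoint_insert_right.mp hd).2
      have hfX : f ∉ X := (Finset.disjoint_insert_right.mp hd).1
      have hfY : f ∉ X ∪ D0 := by simp [hfX, hf]
      have hef : e ≠ f := by
        rintro rfl; apply he; simp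
      have IH := ih he' hd'
      rw [Finset.union_insert]
      have hloc := hl (X ∪ D0) e f he' hfY hef
      rcases (h0 (X ∪ D0)).eq_or_lt with hz | hp
      · have h1 : M (insert e (insert f (X ∪ D0))) ≤ 0 := by
          rw [hz]
          exact hm _ _ ((Finset.subset_insert _ _).trans (Finset.subset_insert _ _))
        have h2 : M (insert e (insert f (X ∪ D0))) = 0 := le_antisymm h1 (h0 _)
        rw [h2, zero_mul]
        exact mul_nonneg (h0 _) (h0 _)
      · have h3 : M (insert e (insert f (X ∪ D0))) * M (X ∪ D0) * M X ≤
            M (insert f (X ∪ D0)) * M (insert e X) * M (X ∪ D0) := by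
          calc M (insert e (insert f (X ∪ D0))) * M (X ∪ D0) * M X
              ≤ M (insert e (X ∪ D0)) * M (insert f (X ∪ D0)) * M X :=
                mul_le_mul_of_nonneg_right hloc (h0 _)
            _ = (M (insert e (X ∪ D0)) * M X) * M (insert f (X ∪ D0)) := by ring
            _ ≤ (M (X ∪ D0) * M (insert e X)) * M (insert f (X ∪ D0)) :=
                mul_le_mul_of_nonneg_right IH (h0 _)
            _ = M (insert f (X ∪ D0)) * M (insert e X) * M (X ∪ D0) := by ring
        nlinarith
  have B : ∀ (I S' : Finset α), I ⊆ S' → ∀ D : Finset α, Disjoint S' D →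
      M (S' ∪ D) * M I ≤ M S' * M (I ∪ D) := by
    intro I S' hI D
    induction D using Finset.induction_on with
    | empty =>
      intro _
      rw [Finset.union_empty, Finset.union_empty]
    | insert e D0 he ih =>
      intro hd
      have hd' : Disjoint S' D0 := (Finset.disjoint_insert_right.mp hd).2
      have heS : e ∉ S' := (Finset.disjoint_insert_right.mp hd).1
      have IH := ih hd'
      have hY : S' ∪ D0 = (I ∪ D0) ∪ (S' \ I) := by
        ext v; simp only [Finset.mem_union, Finset.mem_sdiff]
        constructor
        · rintro (h | h)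
          · by_cases hv : v ∈ I
            · exact Or.inl (Or.inl hv)
            · exact Or.inr ⟨h, hv⟩
          · exact Or.inl (Or.inr h)
        · rintro ((h | h) | h)
          · exact Or.inl (hI h)
          · exact Or.inr h
          · exact Or.inl h.1
      have hdis : Disjoint (I ∪ D0) (S' \ I) := by
        rw [Finset.disjoint_left]
        intro v hv hv2
        rw [Finset.mem_sdiff] at hv2
        rcases Finset.mem_union.mp hv with h | h
        · exact hv2.2 h
        · exact (Finset.disjoint_left.mp hd') hv2.1 h
      have heY : e ∉ (I ∪ D0) ∪ (S' \ I) := by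
        rw [← hY]; simp [heS, he]
      have hA := A (I ∪ D0) e (S' \ I) heY hdis
      rw [← hY] at hA
      rw [Finset.union_insert, Finset.union_insert]
      rcases (h0 (I ∪ D0)).eq_or_lt with hz | hp
      · have h1 : M (insert e (S' ∪ D0)) ≤ 0 := by
          rw [hz]
          apply hm
          exact (Finset.union_subset_union_left hI).trans (Finset.subset_insert _ _)
        have h2 : M (insert e (S' ∪ D0)) = 0 := le_antisymm h1 (h0 _)
        rw [h2, zero_mul]
        exact mul_nonneg (h0 _) (h0 _)
      · have h3 : M (insert e (S' ∪ D0)) * M I * M (I ∪ D0) ≤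
            M S' * M (insert e (I ∪ D0)) * M (I ∪ D0) := by
          calc M (insert e (S' ∪ D0)) * M I * M (I ∪ D0)
              = (M (insert e (S' ∪ D0)) * M (I ∪ D0)) * M I := by ring
            _ ≤ (M (S' ∪ D0) * M (insert e (I ∪ D0))) * M I :=
                mul_le_mul_of_nonneg_right hA (h0 _)
            _ = (M (S' ∪ D0) * M I) * M (insert e (I ∪ D0)) := by ring
            _ ≤ (M S' * M (I ∪ D0)) * M (insert e (I ∪ D0)) :=
                mul_le_mul_of_nonneg_right IH (h0 _)
            _ = M S' * M (insert e (I ∪ D0)) * M (I ∪ D0) := by ring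
        exact le_of_mul_le_mul_right h3 hp
  have h := B (S ∩ T) S Finset.inter_subset_left (T \ S) Finset.disjoint_sdiff
  have e1 : S ∪ T \ S = S ∪ T := Finset.union_sdiff_self_eq_union
  have e2 : S ∩ T ∪ T \ S = T := by
    ext v; simp only [Finset.mem_union, Finset.mem_inter, Finset.mem_sdiff]; tauto
  rwa [e1, e2] at h
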